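import Pool.Agent.Helper53.SCD.Final2

/-!
# The section conjecture for almost all twists of superelliptic curves

`k` is a number field, `f` is a separable polynomial of degree at least `3` over the ring of
integers of `k`, `n` is an integer which is not prime to `deg f`, and `f` has no root modulo
infinitely many primes of `k` (for instance, `f` is irreducible).

For all integers `c` outside a set with at most `C X / (log X)^δ` elements of absolute value at
most `X`, no curve over `k` which maps onto the curve `c yⁿ = f(x)` has a Galois section.  In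
particular the section conjecture holds for `100` percent of the twists `c yⁿ = f(x)`.
-/

universe u

namespace Pool.Agent.Results.MP_e66f84_ag.AlmostAllTwists

open Polynomial NumberField Pool.Agent.Helper91.Sect

theorem result {k : Type u} [Field k] [NumberField k] (n : ℕ) (f : (𝓞 k)[X])
    (hsep : (f.map (algebraMap (𝓞 k) k)).Separable) (hdeg : 3 ≤ f.natDegree)
    (hn : ¬ n.Coprime f.natDegree)
    -- `f` has no root modulo infinitely many primes
    (hroot : {P : Ideal (𝓞 k) | P.IsMaximal ∧ ∀ a : 𝓞 k, f.eval a ∉ P}.Infinite) :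
    ∃ δ : ℝ, 0 < δ ∧ ∃ C : ℝ, ∀ X : ℕ, 2 ≤ X →
      (Nat.card {c : ℤ | |c| ≤ X ∧
        -- some curve with function field `K` maps onto `c yⁿ = f(x)` and has a Galois section
        ∃ (K : Type u) (_ : Field K) (_ : Algebra k K) (x y : K), Transcendental k x ∧
          (c : K) * y ^ n = aeval x (f.map (algebraMap (𝓞 k) k)) ∧
          Nonempty (GaloisSection k K)} : ℝ) ≤ C * X / Real.log X ^ δ := by
  classical
  obtain ⟨ℓ, hℓ, hℓn, hℓd⟩ := Nat.Prime.not_coprime_iff_dvd.1 hn
  have hf0 : f ≠ 0 := by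
    rintro rfl
    simp at hdeg
  obtain ⟨m, hm0, hm⟩ := H53SCD.exists_sep_bad f hsep
  have hb0 : Ideal.absNorm (Ideal.span {f.leadingCoeff}) ≠ 0 := by
    rw [Ne, Ideal.absNorm_eq_zero_iff, Ideal.span_singleton_eq_bot]
    exact leadingCoeff_ne_zero.2 hf0
  obtain ⟨δ, C₀, hδ, hS⟩ := H53SCD.exists_data f hdeg hroot
    ((discr k).natAbs * ℓ * m * Ideal.absNorm (Ideal.span {f.leadingCoeff}))
    (mul_ne_zero (mul_ne_zero (mul_ne_zero (Int.natAbs_ne_zero.2 (discr_ne_zero k)) hℓ.ne_zero) hm0)
      hb0)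
  set S := H53SCD.SS k (integralNormalization f)
    ((discr k).natAbs * ℓ * m * Ideal.absNorm (Ideal.span {f.leadingCoeff})) with hSdef
  obtain ⟨C, hC⟩ := H53SCD.sieve_bound S δ C₀ hδ hS
  refine ⟨δ, hδ, 2 * C, fun X hX => ?_⟩
  set T := {c : ℕ | 0 < c ∧ c ≤ X ∧ ∀ p ∈ S, p.Prime → ¬ (p ∣ c ∧ ¬ p ^ 2 ∣ c)} with hT
  set E := {c : ℤ | |c| ≤ X ∧ ∃ (K : Type u) (_ : Field K) (_ : Algebra k K) (x y : K),
    Transcendental k x ∧ (c : K) * y ^ n = aeval x (f.map (algebraMap (𝓞 k) k)) ∧
      Nonempty (GaloisSection k K)} with hE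
  have hTfin : T.Finite := (Set.finite_Icc 0 X).subset fun c hc => ⟨Nat.zero_le _, hc.2.1⟩
  have hTF : Finite T := hTfin
  have key : ∀ c ∈ E, c.natAbs ∈ T := by
    rintro c ⟨hcX, K, hKf, hKa, x, y, hx, hxy, ⟨s⟩⟩
    have hc0 : c ≠ 0 := by
      rintro rfl
      rw [Int.cast_zero, zero_mul] at hxy
      apply hx
      refine ⟨f.map (algebraMap (𝓞 k) k), ?_, hxy.symm⟩
      rw [Ne, Polynomial.map_eq_zero_iff RingOfIntegers.coe_injective]
      exact hf0
    refine ⟨Int.natAbs_pos.2 hc0, by
      rw [Int.abs_eq_natAbs] at hcX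
      exact_mod_cast hcX, ?_⟩
    rintro p hpS hp ⟨h1, h2⟩
    obtain ⟨-, hpbad, ψ, hψ⟩ := hpS
    have hpf : Fact p.Prime := ⟨hp⟩
    have hp1 : ¬ p ∣ (discr k).natAbs := fun h =>
      hpbad (((h.mul_right _).mul_right _).mul_right _)
    have hp2 : ¬ p ∣ ℓ := fun h => hpbad (((h.mul_left _).mul_right _).mul_right _)
    have hp3 : ¬ p ∣ m := fun h => hpbad ((h.mul_left _).mul_right _)
    have hp4 : ¬ p ∣ Ideal.absNorm (Ideal.span {f.leadingCoeff}) := fun h =>
      hpbad (h.mul_left _)
    have hlc : ψ f.leadingCoeff ≠ 0 := by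
      intro h
      apply hp4
      have h3 : Ideal.span {f.leadingCoeff} ≤ RingHom.ker ψ := by
        rw [Ideal.span_le, Set.singleton_subset_iff]
        exact h
      have h4 := Ideal.absNorm_dvd_absNorm_of_le h3
      rwa [H53SCD.absNorm_ker] at h4
    have hroot' : ∀ a, (f.map ψ).eval a ≠ 0 := by
      intro a ha
      rw [eval_map] at ha
      have h3 := integralNormalization_eval₂_leadingCoeff_mul (show 1 ≤ f.natDegree by omega) ψ a
      rw [ha, mul_zero, ← eval_map] at h3
      exact hψ _ h3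
    have hy : (c : K) * (y ^ (n / ℓ)) ^ ℓ = aeval x (f.map (algebraMap (𝓞 k) k)) := by
      rw [← pow_mul, Nat.div_mul_cancel hℓn, hxy]
    exact H53SCD.no_section k p ψ hp1 hℓ hp2 f hlc (hm p hp3 ψ) hℓd hdeg hroot' c
      (Int.natCast_dvd.2 h1) (by
        intro h
        apply h2
        have h3 : ((p ^ 2 : ℕ) : ℤ) ∣ c := by exact_mod_cast h
        exact Int.natCast_dvd.1 h3) x (y ^ (n / ℓ)) hx hy s
  have hcard : Nat.card E ≤ 2 * Nat.card T := by
    have h1 : Nat.card E ≤ Nat.card (Bool × T) := by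
      refine Nat.card_le_card_of_injective
        (fun c : E => ((decide (0 ≤ c.1), ⟨c.1.natAbs, key c.1 c.2⟩) : Bool × T)) ?_
      rintro ⟨a, ha⟩ ⟨b, hb⟩ hab
      have h2 := congrArg Prod.fst hab
      have h3 := congrArg (fun z => (Prod.snd z : T).1) hab
      apply Subtype.ext
      simp only [decide_eq_decide] at h2
      dsimp only at h3 ⊢
      omega
    rw [Nat.card_prod, Nat.card_eq_fintype_card (α := Bool), Fintype.card_bool] at h1
    exact h1
  calc (Nat.card E : ℝ) ≤ 2 * (Nat.card T : ℝ) := by exact_mod_cast hcard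
    _ ≤ 2 * (C * X / Real.log X ^ δ) := by
        have := hC X hX
        linarith
    _ = 2 * C * X / Real.log X ^ δ := by ring

end Pool.Agent.Results.MP_e66f84_ag.AlmostAllTwists
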